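import Mathlib
import Pool.Agent.H7.MorC

set_option autoImplicit false

namespace Pool.Agent.Results.MP_be4214_an.SmallCircles

open Filter Topology

/-- Let `f` be continuous on the open set `D ⊆ ℂ`.  If for every `z ∈ D` the integral of `f` over the
circle of radius `r` about `z` is `o(r²)` as `r → 0⁺`, then `f` is holomorphic on `D`.  In
particular this holds if for every `z ∈ D` these integrals vanish for all small `r`. -/
theorem result (D : Set ℂ) (hD : IsOpen D) (f : ℂ → ℂ) (hf : ContinuousOn f D) :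
    ((∀ z ∈ D, Tendsto (fun r : ℝ => (∮ ζ in C(z, r), f ζ) / (r : ℂ) ^ 2) (𝓝[>] 0) (𝓝 0)) →
      DifferentiableOn ℂ f D) ∧
    ((∀ z ∈ D, ∃ r₀ : ℝ, 0 < r₀ ∧ ∀ r : ℝ, 0 < r → r ≤ r₀ → (∮ ζ in C(z, r), f ζ) = 0) →
      DifferentiableOn ℂ f D) := by
  refine ⟨Pool.Agent.H7.Mor.morera D hD f hf, fun h => ?_⟩
  apply Pool.Agent.H7.Mor.morera D hD f hf
  intro z hz
  obtain ⟨r₀, hr₀, h0⟩ := h z hz
  apply tendsto_const_nhds.congr'
  have h2 : ∀ᶠ r in 𝓝[>] (0:ℝ), r < r₀ := eventually_nhdsWithin_of_eventually_nhds (gt_mem_nhds hr₀)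
  filter_upwards [h2, self_mem_nhdsWithin] with r hr1 hr2
  rw [h0 r hr2 hr1.le, zero_div]

end Pool.Agent.Results.MP_be4214_an.SmallCircles
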